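import Pool.Agent.H30Z.Forc.Posets

/-!
The ground model argument. A countably closed forcing with reducts for a countably complete
ultrafilter cannot carry a name for a large structure of breadth two with small intervals.
-/

set_option autoImplicit false

namespace Pool.Agent.H774Z.Ditor

open Cardinal Set Filter Pool.Agent.H30Z.Forc

theorem mk_biUnion_le_of {ι α : Type} {S : Set ι} {E : ι → Set α} {c : Cardinal.{0}} (hc : ℵ₀ ≤ c)
    (hS : #S ≤ c) (hE : ∀ i ∈ S, #(E i) ≤ c) : #(⋃ i ∈ S, E i) ≤ c := by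
  rw [biUnion_eq_iUnion]
  refine mk_iUnion_le_sum_mk.trans ((sum_le_sum _ (fun _ => c) fun i : S => hE i.1 i.2).trans ?_)
  rw [sum_const']
  exact (mul_le_mul' hS le_rfl).trans (mul_eq_self hc).le

theorem mk_prod_le {α β : Type} {S : Set α} {S' : Set β} {c : Cardinal.{0}} (hc : ℵ₀ ≤ c)
    (hS : #S ≤ c) (hS' : #S' ≤ c) : #(S ×ˢ S' : Set (α × β)) ≤ c := by
  rw [mk_setProd]
  exact (mul_le_mul' hS hS').trans (mul_eq_self hc).le

theorem exists_notMem_of_lt {α : Type} {S Y : Set α} (h : #S < #Y) : ∃ y ∈ Y, y ∉ S := by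
  by_contra hh
  push Not at hh
  exact absurd (mk_le_mk_of_subset hh) (not_le.2 h)

/-- the hypotheses on the name of the ternary relation -/
structure Tern {P X : Type} [Preorder P] (lam : ℕ → Cardinal.{0})
    (C : P → X → X → X → Prop) : Prop where
  mono : ∀ p q x y z, C p x y z → q ≤ p → C q x y z
  symm : ∀ p x y z, C p x y z → C p x z y
  cut : ∀ p x a b t, C p x a b → C p t x b → C p t a b
  three : ∀ p a b c, ∃ q, q ≤ p ∧ (C q a b c ∨ C q b a c ∨ C q c a b)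
  small : ∀ p y z, ∃ q, q ≤ p ∧ ∃ n, #{x | ∃ r, r ≤ q ∧ C r x y z} ≤ lam n

section
variable {P X : Type} [Preorder P] {lam : ℕ → Cardinal.{0}} {C : P → X → X → X → Prop}

/-- the possible elements below the join of `y` and `z` -/
def EE (C : P → X → X → X → Prop) (q : P) (y z : X) : Set X := {x | ∃ r, r ≤ q ∧ C r x y z}

theorem EE_mono {q q' : P} (h : q' ≤ q) (y z : X) : EE C q' y z ⊆ EE C q y z :=
  fun _ ⟨r, hr, hx⟩ => ⟨r, hr.trans h, hx⟩

/-- everything that can be below a join of two elements of `T` -/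
def Bad (C : P → X → X → X → Prop) (T : Set X) : Set X := {t | ∃ y ∈ T, ∃ z ∈ T, ∃ r, C r t y z}

theorem mk_bad (h : Tern lam C) {Λ : Cardinal.{0}} (h0 : ℵ₀ ≤ Λ) (hP : #P ≤ Λ)
    (hΛ : ∀ n, lam n ≤ Λ) {T : Set X} (hT : #T ≤ Λ) : #(Bad C T) ≤ Λ := by
  have hsub : Bad C T ⊆ ⋃ i ∈ ((T ×ˢ T) ×ˢ (univ : Set P)) ∩ {i | #(EE C i.2 i.1.1 i.1.2) ≤ Λ},
      EE C i.2 i.1.1 i.1.2 := by
    rintro t ⟨y, hy, z, hz, r, hr⟩
    obtain ⟨q, hq, n, hn⟩ := h.small r y z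
    exact mem_biUnion (x := ((y, z), q)) ⟨⟨⟨hy, hz⟩, trivial⟩, hn.trans (hΛ n)⟩
      ⟨q, le_rfl, h.mono _ _ _ _ _ hr hq⟩
  refine (mk_le_mk_of_subset hsub).trans (mk_biUnion_le_of h0 ?_ fun i hi => hi.2)
  exact (mk_le_mk_of_subset inter_subset_left).trans
    (mk_prod_le h0 (mk_prod_le h0 hT hT) (by simpa using hP))

theorem big (h : Tern lam C) (h0 : ℵ₀ ≤ lam 0) (hP : #P ≤ lam 0) (hmono : StrictMono lam)
    {T Y : Set X} {x : X} (hx : x ∉ Bad C T) (hY : Y ⊆ T) {m : ℕ} (hm : lam (m + 1) < #Y) (p : P) :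
    ∃ y ∈ Y, ∃ q, q ≤ p ∧ ∀ r, r ≤ q → ¬ #(EE C r x y) ≤ lam m := by
  by_contra hcon
  push Not at hcon
  have hinf : ℵ₀ ≤ lam (m + 1) := h0.trans (hmono.monotone (Nat.zero_le _))
  obtain ⟨Z, hZY, hZ⟩ := le_mk_iff_exists_subset.1 hm.le
  have h1 : #(⋃ i ∈ (Z ×ˢ (univ : Set P)) ∩ {i | #(EE C i.2 x i.1) ≤ lam m}, EE C i.2 x i.1)
      ≤ lam (m + 1) := by
    refine mk_biUnion_le_of hinf ?_ fun i hi => le_trans hi.2 (hmono.monotone (Nat.le_succ m))
    exact (mk_le_mk_of_subset inter_subset_left).trans (mk_prod_le hinf hZ.le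
      (by simpa using hP.trans (hmono.monotone (Nat.zero_le _))))
  obtain ⟨z, hzY, hz⟩ := exists_notMem_of_lt (h1.trans_lt hm)
  obtain ⟨q0, -, hq0⟩ := hcon z hzY p le_rfl
  have hq0p : ∀ y ∈ Y, ∀ q, q ≤ p → ∃ r, r ≤ q ∧ #(EE C r x y) ≤ lam m := hcon
  obtain ⟨q0, hq0p', hq0⟩ := hq0p z hzY p le_rfl
  have h2 : Z ⊆ EE C q0 x z := by
    intro y hy
    obtain ⟨q1, hq1, hs⟩ := hq0p y (hZY hy) q0 hq0p'
    obtain ⟨q2, hq2, h3 | h3 | h3⟩ := h.three q1 x y z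
    · exact absurd ⟨y, hY (hZY hy), z, hY hzY, q2, h3⟩ hx
    · exact ⟨q2, hq2.trans hq1, h3⟩
    · refine hz (mem_biUnion (x := (y, q1)) ⟨⟨hy, trivial⟩, hs⟩ ?_) |>.elim
      exact ⟨q2, hq2, h3⟩
  have h3 := (mk_le_mk_of_subset h2).trans hq0
  rw [hZ] at h3
  exact absurd h3 (not_le.2 (hmono (Nat.lt_succ_self m)))

theorem ultra_nat {U : Ultrafilter X} [CountableInterFilter (U : Filter X)] (n : X → ℕ) :
    ∃ k, ∀ᶠ ξ in (U : Filter X), n ξ = k := by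
  by_contra hh
  push Not at hh
  obtain ⟨ξ, hξ⟩ := (eventually_countable_forall.2 hh).exists
  exact hξ _ rfl

theorem lower_bound (hσ : SigmaClosed P) {U : Ultrafilter X} [CountableInterFilter (U : Filter X)]
    (g : ℕ → X → P) (hg : ∀ m, ∀ᶠ ξ in (U : Filter X), g (m + 1) ξ ≤ g m ξ) :
    ∃ f : X → P, ∀ᶠ ξ in (U : Filter X), ∀ m, f ξ ≤ g m ξ := by
  classical
  refine ⟨fun ξ => if h : ∃ q, ∀ m, q ≤ g m ξ then h.choose else g 0 ξ, ?_⟩
  filter_upwards [eventually_countable_forall.2 hg] with ξ hξ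
  have h : ∃ q, ∀ m, q ≤ g m ξ := hσ _ (antitone_nat_of_succ_le hξ)
  simp only [dif_pos h]
  exact h.choose_spec

theorem abstract [Nonempty P] (hσ : SigmaClosed P) (U : Ultrafilter X)
    [CountableInterFilter (U : Filter X)] {Λ : Cardinal.{0}} (h0 : ℵ₀ ≤ lam 0) (hP : #P ≤ lam 0)
    (hmono : StrictMono lam) (hΛ : ∀ n, lam n ≤ Λ) (hX : Λ < #X)
    (T : X → Set X) (hT : ∀ ξ, #(T ξ) ≤ Λ) (hTU : ∀ a, ∀ᶠ ξ in (U : Filter X), a ∈ T ξ)
    (red : ∀ f : X → P, ∃ r : P, ∀ p, p ≤ r → ∀ᶠ ξ in (U : Filter X), ∃ s, s ≤ p ∧ s ≤ f ξ)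
    (h : Tern lam C) : False := by
  classical
  have hΛ0 : ℵ₀ ≤ Λ := h0.trans (hΛ 0)
  have hPΛ : #P ≤ Λ := hP.trans (hΛ 0)
  have hout : ∀ S : Set X, #S ≤ Λ → ∃ x, x ∉ Bad C S := by
    intro S hS
    obtain ⟨x, -, hx⟩ := exists_notMem_of_lt (Y := univ)
      ((mk_bad h hΛ0 hPΛ hΛ hS).trans_lt (by simpa using hX))
    exact ⟨x, hx⟩
  choose xx hxx using fun ξ => hout (T ξ) (hT ξ)
  let Le : (X → P) → (X → P) → Prop := fun f g => ∀ᶠ ξ in (U : Filter X), f ξ ≤ g ξ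
  have Le_refl : ∀ f, Le f f := fun f => Eventually.of_forall fun _ => le_rfl
  have Le_trans : ∀ f g k, Le f g → Le g k → Le f k := fun f g k h1 h2 => by
    filter_upwards [h1, h2] with ξ a b using a.trans b
  let In : (X → P) → X → ℕ → Prop := fun f y n =>
    ∀ᶠ ξ in (U : Filter X), #(EE C (f ξ) (xx ξ) y) ≤ lam n
  have In_dense : ∀ f y, ∃ g, Le g f ∧ ∃ n, In g y n := by
    intro f y
    choose g hg n hn using fun ξ => h.small (f ξ) (xx ξ) y
    obtain ⟨k, hk⟩ := ultra_nat (U := U) n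
    refine ⟨g, Eventually.of_forall hg, k, ?_⟩
    filter_upwards [hk] with ξ hξ
    rw [← hξ]; exact hn ξ
  let S : ℕ → (X → P) → Set X := fun n g => {y | ∃ k, Le k g ∧ In k y n}
  obtain ⟨f, n, hfn⟩ : ∃ f n, ∀ g, Le g f → Λ < #(S n g) := by
    by_contra hcon
    push Not at hcon
    choose nx hnx hnx' using hcon
    let g : ℕ → X → P := fun m => Nat.rec (fun _ => Classical.arbitrary P) (fun m a => nx a m) m
    obtain ⟨f, hf⟩ := lower_bound hσ (U := U) g (fun m => hnx (g m) m)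
    have hsub : (univ : Set X) ⊆ ⋃ m ∈ (univ : Set ℕ), S m (g (m + 1)) := by
      intro y _
      obtain ⟨k, hk, m, hm⟩ := In_dense f y
      refine mem_biUnion (x := m) trivial ⟨k, ?_, hm⟩
      filter_upwards [hk, hf] with ξ a b using a.trans (b (m + 1))
    have := (mk_le_mk_of_subset hsub).trans (mk_biUnion_le_of hΛ0 (by simpa using hΛ0)
      fun m _ => hnx' (g m) m)
    rw [mk_univ] at this
    exact absurd this (not_le.2 hX)
  have hY : ∀ g, ∃ Y : Set X, #Y ≤ Λ ∧ (Le g f → Y ⊆ S n g ∧ #Y = Λ) := by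
    intro g
    by_cases hg : Le g f
    · obtain ⟨Y, h1, h2⟩ := le_mk_iff_exists_subset.1 (hfn g hg).le
      exact ⟨Y, h2.le, fun _ => ⟨h1, h2⟩⟩
    · exact ⟨∅, by simp, fun hh => absurd hh hg⟩
  choose Y hY1 hY2 using hY
  have hG : ∀ g y, ∃ k, Le k g ∧ (y ∈ S n g → In k y n) := by
    intro g y
    by_cases hy : y ∈ S n g
    · obtain ⟨k, h1, h2⟩ := hy
      exact ⟨k, h1, fun _ => h2⟩
    · exact ⟨g, Le_refl g, fun hh => absurd hh hy⟩
  choose G hG1 hG2 using hG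
  choose rd hrd using red
  have hmeet : ∀ (k : X → P) (q : P), ∃ s, Le s k ∧
      (q ≤ rd k → ∀ᶠ ξ in (U : Filter X), s ξ ≤ q) := by
    intro k q
    by_cases hq : q ≤ rd k
    · refine ⟨fun ξ => if hh : ∃ s, s ≤ q ∧ s ≤ k ξ then hh.choose else k ξ, ?_, fun _ => ?_⟩
      · filter_upwards [hrd k q hq] with ξ hξ
        simp only [dif_pos hξ]
        exact hξ.choose_spec.2
      · filter_upwards [hrd k q hq] with ξ hξ
        simp only [dif_pos hξ]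
        exact hξ.choose_spec.1
    · exact ⟨k, Le_refl k, fun hh => absurd hh hq⟩
  choose meet hmeet1 hmeet2 using hmeet
  let Lv : ℕ → Set (X → P) := fun m => Nat.rec {f}
    (fun _ A => ⋃ g ∈ A, (fun i : X × P => meet (G g i.1) i.2) '' (Y g ×ˢ (Set.univ : Set P))) m
  have hLv : ∀ m, Lv (m + 1) =
    ⋃ g ∈ Lv m, (fun i : X × P => meet (G g i.1) i.2) '' (Y g ×ˢ (Set.univ : Set P)) := fun _ => rfl
  have hLvc : ∀ m, #(↥(Lv m)) ≤ Λ := by
    intro m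
    induction m with
    | zero =>
      show #({f} : Set (X → P)) ≤ Λ
      rw [mk_singleton]
      exact one_le_aleph0.trans hΛ0
    | succ m ih =>
      rw [hLv]
      exact mk_biUnion_le_of hΛ0 ih fun g _ => mk_image_le.trans
        (mk_prod_le hΛ0 (hY1 g) (by simpa using hPΛ))
  let TT : Set X := ⋃ m ∈ (univ : Set ℕ), ⋃ g ∈ Lv m, Y g
  have hTT : #TT ≤ Λ := mk_biUnion_le_of hΛ0 (by simpa using hΛ0) fun m _ =>
    mk_biUnion_le_of hΛ0 (hLvc m) fun g _ => hY1 g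
  obtain ⟨x, hx⟩ := hout TT hTT
  have step : ∀ m g, g ∈ Lv m → Le g f → ∃ g' ∈ Lv (m + 1), Le g' g ∧ ∃ y, In g' y n ∧
      ∀ᶠ ξ in (U : Filter X), ∀ r, r ≤ g' ξ → ¬ #(EE C r x y) ≤ lam m := by
    intro m g hg hgf
    obtain ⟨h1, h2⟩ := hY2 g hgf
    have hinf : ℵ₀ ≤ lam (m + 1) := h0.trans (hmono.monotone (Nat.zero_le _))
    obtain ⟨p, hp⟩ : ∃ p : P, lam (m + 1) < #(Y g ∩ {y | rd (G g y) = p} : Set X) := by
      by_contra hcon
      push Not at hcon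
      have hsub : Y g ⊆ ⋃ p ∈ (univ : Set P), Y g ∩ {y | rd (G g y) = p} :=
        fun y hy => mem_biUnion (x := rd (G g y)) trivial ⟨hy, rfl⟩
      have := (mk_le_mk_of_subset hsub).trans (mk_biUnion_le_of hinf
        (by simpa using hP.trans (hmono.monotone (Nat.zero_le _))) fun p _ => hcon p)
      rw [h2] at this
      exact absurd ((hΛ (m + 2)).trans this) (not_le.2 (hmono (Nat.lt_succ_self _)))
    have hsubT : Y g ∩ {y | rd (G g y) = p} ⊆ TT := fun y hy =>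
      mem_biUnion (x := m) trivial (mem_biUnion hg hy.1)
    obtain ⟨y, ⟨hy1, hy2⟩, q, hq, hbig⟩ := big h h0 hP hmono hx hsubT hp p
    have hq' : q ≤ rd (G g y) := by rw [show rd (G g y) = p from hy2]; exact hq
    refine ⟨meet (G g y) q, ?_, Le_trans _ _ _ (hmeet1 _ _) (hG1 g y), y, ?_, ?_⟩
    · rw [hLv]
      exact mem_biUnion hg ⟨(y, q), ⟨hy1, trivial⟩, rfl⟩
    · filter_upwards [hG2 g y (h1 hy1), hmeet1 (G g y) q] with ξ a b
      exact (mk_le_mk_of_subset (EE_mono b _ _)).trans a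
    · filter_upwards [hmeet2 (G g y) q hq'] with ξ a r hr
      exact hbig r (hr.trans a)
  have : Nonempty X := ⟨x⟩
  choose! nx hnx1 hnx2 yy hyy1 hyy2 using step
  let g : ℕ → X → P := fun m => Nat.rec f (fun m a => nx m a) m
  have hg : ∀ m, g m ∈ Lv m ∧ Le (g m) f := by
    intro m
    induction m with
    | zero => exact ⟨rfl, Le_refl f⟩
    | succ m ih => exact ⟨hnx1 m _ ih.1 ih.2, Le_trans _ _ _ (hnx2 m _ ih.1 ih.2) ih.2⟩
  obtain ⟨f', hf'⟩ := lower_bound hσ (U := U) g (fun m => hnx2 m _ (hg m).1 (hg m).2)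
  have e1 := eventually_countable_forall.2 fun m => hyy1 m _ (hg m).1 (hg m).2
  have e2 := eventually_countable_forall.2 fun m => hyy2 m _ (hg m).1 (hg m).2
  have e3 := eventually_countable_forall.2 fun m => hTU (yy m (g m))
  obtain ⟨ξ, ⟨a1, a2⟩, a3, a4, a5⟩ := ((hf'.and e1).and (e2.and (e3.and (hTU x)))).exists
  obtain ⟨q, hq, k, hk⟩ := h.small (f' ξ) x (xx ξ)
  let m := max n k
  have hqm : q ≤ nx m (g m) ξ := hq.trans (a1 (m + 1))
  obtain ⟨r, hr, h3 | h3 | h3⟩ := h.three q x (xx ξ) (yy m (g m))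
  · refine a3 m r (hr.trans hqm) (le_trans (mk_le_mk_of_subset ?_)
      ((a2 m).trans (hmono.monotone (le_max_left n k))))
    rintro t ⟨s, hs, ht⟩
    exact ⟨s, hs.trans (hr.trans hqm), h.cut _ _ _ _ _ (h.mono _ _ _ _ _ h3 hs) ht⟩
  · exact hxx ξ ⟨x, a5, _, a4 m, r, h3⟩
  · refine a3 m r (hr.trans hqm) (le_trans (mk_le_mk_of_subset ?_)
      (hk.trans (hmono.monotone (le_max_right n k))))
    rintro t ⟨s, hs, ht⟩
    refine ⟨s, hs.trans hr, h.symm _ _ _ _ ?_⟩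
    exact h.cut _ _ _ _ _ (h.symm _ _ _ _ (h.mono _ _ _ _ _ h3 hs)) (h.symm _ _ _ _ ht)

end

end Pool.Agent.H774Z.Ditor
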