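import Pool.Agent.Helper212.CohenE.Defs

/-!
Strongly compact cardinals; cardinals, `ℵ_ω` and `ℵ_{ω+1}` computed inside a transitive set `M`;
join-semilattices and their breadth.
-/

set_option autoImplicit false

namespace Pool.Agent.H774Z.Ditor

open ZFSet

/-- `κ` is strongly compact: it is uncountable and regular, and on every set every proper
`κ`-complete filter extends to a `κ`-complete ultrafilter. -/
def StronglyCompact (κ : Cardinal.{0}) : Prop :=
  Cardinal.aleph0 < κ ∧ κ.IsRegular ∧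
    ∀ (X : Type) (F : Filter X), CardinalInterFilter F κ → F.NeBot →
      ∃ U : Ultrafilter X, (U : Filter X) ≤ F ∧ CardinalInterFilter (U : Filter X) κ

/-- `f` is an injective function from `a` to `b`. -/
def IsInj (f a b : ZFSet.{0}) : Prop :=
  IsFunc a b f ∧ ∀ x x' y, pair x y ∈ f → pair x' y ∈ f → x = x'

/-- `|a| ≤ |b|` in `M`: there is an injection from `a` to `b` in `M`. -/
def LeIn (M : Set ZFSet.{0}) (a b : ZFSet.{0}) : Prop := ∃ f ∈ M, IsInj f a b

/-- `c` is a cardinal of `M`: an ordinal of `M` without injection in `M` into a smaller ordinal. -/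
def CardIn (M : Set ZFSet.{0}) (c : ZFSet.{0}) : Prop :=
  c ∈ M ∧ c.IsOrdinal ∧ ∀ β ∈ c, ¬ LeIn M c β

/-- `c` is an uncountable limit cardinal of `M`. -/
def LimCardIn (M : Set ZFSet.{0}) (c : ZFSet.{0}) : Prop :=
  CardIn M c ∧ omega ∈ c ∧ ∀ β ∈ c, ∃ d ∈ c, CardIn M d ∧ β ∈ d

/-- `μ` is the `ℵ_ω` of `M`: the least uncountable limit cardinal of `M`. -/
def IsAlephOmega (M : Set ZFSet.{0}) (μ : ZFSet.{0}) : Prop :=
  LimCardIn M μ ∧ ∀ c ∈ μ, ¬ LimCardIn M c

/-- `ν` is the successor cardinal of `μ` in `M`. -/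
def IsSuccCard (M : Set ZFSet.{0}) (μ ν : ZFSet.{0}) : Prop :=
  CardIn M ν ∧ μ ∈ ν ∧ ∀ c ∈ ν, μ ∈ c → ¬ CardIn M c

/-- `s` is the least upper bound of `X` in the order `(L, R)`; `pair x y ∈ R` means `x ≤ y`. -/
def IsLub (L R : ZFSet.{0}) (X : Finset ZFSet.{0}) (s : ZFSet.{0}) : Prop :=
  s ∈ L ∧ (∀ x ∈ X, pair x s ∈ R) ∧ ∀ u ∈ L, (∀ x ∈ X, pair x u ∈ R) → pair s u ∈ R

open Classical in
/-- `(L, R)` is a partial order in which any two elements have a least upper bound. -/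
def IsJoinSemilattice (L R : ZFSet.{0}) : Prop :=
  R ⊆ prod L L ∧ (∀ x ∈ L, pair x x ∈ R) ∧
    (∀ x y, pair x y ∈ R → pair y x ∈ R → x = y) ∧
    (∀ x y z, pair x y ∈ R → pair y z ∈ R → pair x z ∈ R) ∧
    ∀ x ∈ L, ∀ y ∈ L, ∃ s, IsLub L R {x, y} s

/-- Breadth at most `n`: every nonempty finite `X ⊆ L` has a subset `Y` with at most `n` elements
and the same join. -/
def BreadthLE (L R : ZFSet.{0}) (n : ℕ) : Prop :=
  ∀ X : Finset ZFSet.{0}, X.Nonempty → (∀ x ∈ X, x ∈ L) →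
    ∃ Y ⊆ X, Y.card ≤ n ∧ ∃ s, IsLub L R X s ∧ IsLub L R Y s

/-- The principal ideal `↓a`. -/
noncomputable def down (L R a : ZFSet.{0}) : ZFSet.{0} := ZFSet.sep (fun x => pair x a ∈ R) L

end Pool.Agent.H774Z.Ditor
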