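import Pool.Agent.H774Z.Ditor.Ords

/-! From a semilattice of breadth two inside a model to a ternary relation on an ordinal. -/

set_option autoImplicit false

namespace Pool.Agent.H774Z.Ditor

open CohenE ZFSet Pool.Agent.H30Z.Forc

variable {M : Set ZFSet.{0}} {L R : ZFSet.{0}}

theorem three (hb : BreadthLE L R 2) {a b c : ZFSet.{0}} (ha : a ∈ L) (hb' : b ∈ L) (hc : c ∈ L) :
    (∀ d ∈ L, pair b d ∈ R → pair c d ∈ R → pair a d ∈ R) ∨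
    (∀ d ∈ L, pair a d ∈ R → pair c d ∈ R → pair b d ∈ R) ∨
    (∀ d ∈ L, pair a d ∈ R → pair b d ∈ R → pair c d ∈ R) ∨
    ∃ x y z, pair x y ∈ R ∧ pair y z ∈ R ∧ pair x z ∉ R := by
  classical
  by_contra hcon
  simp only [not_or, not_exists, not_and, not_not] at hcon
  obtain ⟨h1, h2, h3, htr⟩ := hcon
  obtain ⟨Y, hY, hcard, s, hs, hs'⟩ := hb {a, b, c} (by simp) (by
    intro x hx
    simp only [Finset.mem_insert, Finset.mem_singleton] at hx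
    rcases hx with rfl | rfl | rfl <;> assumption)
  have key : ∀ x ∈ ({a, b, c} : Finset ZFSet.{0}), ∀ d ∈ L, (∀ y ∈ Y, pair y d ∈ R) →
      pair x d ∈ R := fun x hx d hd h => htr _ _ _ (hs.2.1 x hx) (hs'.2.2 d hd h)
  have hmem : ∀ y ∈ Y, y = a ∨ y = b ∨ y = c := fun y hy => by simpa using hY hy
  have ab : a ≠ b := by
    rintro rfl
    exact h1 fun d _ h _ => h
  have ac : a ≠ c := by
    rintro rfl
    exact h1 fun d _ _ h => h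
  have bc : b ≠ c := by
    rintro rfl
    exact h2 fun d _ _ h => h
  have haY : a ∈ Y := by
    by_contra hh
    refine h1 fun d hd e1 e2 => key a (by simp) d hd fun y hy => ?_
    rcases hmem y hy with rfl | rfl | rfl
    · exact absurd hy hh
    · exact e1
    · exact e2
  have hbY : b ∈ Y := by
    by_contra hh
    refine h2 fun d hd e1 e2 => key b (by simp) d hd fun y hy => ?_
    rcases hmem y hy with rfl | rfl | rfl
    · exact e1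
    · exact absurd hy hh
    · exact e2
  have hcY : c ∈ Y := by
    by_contra hh
    refine h3 fun d hd e1 e2 => key c (by simp) d hd fun y hy => ?_
    rcases hmem y hy with rfl | rfl | rfl
    · exact e1
    · exact e2
    · exact absurd hy hh
  have h4 : ({a, b, c} : Finset ZFSet.{0}) ⊆ Y := by
    intro x hx
    simp only [Finset.mem_insert, Finset.mem_singleton] at hx
    rcases hx with rfl | rfl | rfl <;> assumption
  have h5 := (Finset.card_le_card h4).trans hcard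
  rw [Finset.card_eq_three.2 ⟨a, b, c, ab, ac, bc, rfl⟩] at h5
  omega

theorem comp_mem (hM : CTM M) {a b c f g : ZFSet.{0}} (ha : a ∈ M) (hb : b ∈ M) (hc : c ∈ M)
    (hf : f ∈ M) (hg : g ∈ M) :
    ∃ k ∈ M, ∀ x y, pair x y ∈ k ↔ x ∈ a ∧ y ∈ c ∧ ∃ u ∈ b, pair x u ∈ f ∧ pair u y ∈ g := by
  obtain ⟨k, hk, -, hk'⟩ := rel_mem hM (RD.bex 2 ((RD.app 1 0 4).and (RD.app 0 2 5)))
    (v := zl [b, f, g]) (zl_mem hM (by simp [hb, hf, hg])) ha hc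
  exact ⟨k, hk, hk'⟩

theorem inner (hM : CTM M) {μ ν : ZFSet.{0}} (hμ : μ ∈ M) (hν : ν ∈ M) (hL : L ∈ M) (hR : R ∈ M)
    (hj : IsJoinSemilattice L R) (hb : BreadthLE L R 2) (hle : LeIn M ν L)
    (hs : ∀ a ∈ L, ∃ β ∈ μ, LeIn M (down L R a) β) :
    ∃ T ∈ M, (∀ x y z, pair x (pair y z) ∈ T → pair x (pair z y) ∈ T) ∧
      (∀ x a b t, pair x (pair a b) ∈ T → pair t (pair x b) ∈ T → pair t (pair a b) ∈ T) ∧
      (∀ a ∈ ν, ∀ b ∈ ν, ∀ c ∈ ν,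
        pair a (pair b c) ∈ T ∨ pair b (pair a c) ∈ T ∨ pair c (pair a b) ∈ T) ∧
      ∀ y ∈ ν, ∀ z ∈ ν, ∃ β ∈ μ, ∃ g ∈ M, (∀ x, pair x (pair y z) ∈ T → ∃ ξ ∈ β, pair x ξ ∈ g) ∧
        ∀ x x' ξ, pair x ξ ∈ g → pair x' ξ ∈ g → x = x' := by
  classical
  obtain ⟨f, hf, hfi⟩ := hle
  obtain ⟨-, hrefl, -, htr, hjoin⟩ := hj
  obtain ⟨S, hS, hS'⟩ := comp_mem hM hν hL hL hf hR
  obtain ⟨T, hT, -, hT'⟩ := rel_mem hM (RD.bex 2 (RD.bex 3 ((RD.isPair 3 1 0).and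
    (RD.ball 5 ((RD.app 2 0 7).imp ((RD.app 1 0 7).imp (RD.app 3 0 7)))))))
    (v := zl [ν, L, S]) (zl_mem hM (by simp [hν, hL, hS])) hν (prod_mem hM hν hν)
  have key : ∀ x y z, pair x (pair y z) ∈ T ↔ x ∈ ν ∧ y ∈ ν ∧ z ∈ ν ∧
      ∀ d ∈ L, pair y d ∈ S → pair z d ∈ S → pair x d ∈ S := by
    intro x y z
    rw [hT', pair_mem_prod]
    constructor
    · rintro ⟨h1, ⟨h2, h3⟩, y', -, z', -, h4, h5⟩
      have h6 : pair y z = pair y' z' := h4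
      rw [pair_inj] at h6
      obtain ⟨rfl, rfl⟩ := h6
      exact ⟨h1, h2, h3, h5⟩
    · rintro ⟨h1, h2, h3, h4⟩
      exact ⟨h1, ⟨h2, h3⟩, y, h2, z, h3, rfl, h4⟩
  have val : ∀ x ∈ ν, ∃ u ∈ L, pair x u ∈ f ∧ ∀ d ∈ L, (pair x d ∈ S ↔ pair u d ∈ R) := by
    intro x hx
    obtain ⟨u, hu, hu'⟩ := hfi.1.2 x hx
    have huL := (pair_mem_prod.1 (hfi.1.1 hu)).2
    refine ⟨u, huL, hu, fun d hd => ?_⟩
    rw [hS']
    constructor
    · rintro ⟨-, -, w, -, h1, h2⟩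
      rw [← hu' w h1]; exact h2
    · exact fun h => ⟨hx, hd, u, huL, hu, h⟩
  refine ⟨T, hT, ?_, ?_, ?_, ?_⟩
  · intro x y z h
    obtain ⟨h1, h2, h3, h4⟩ := (key _ _ _).1 h
    exact (key _ _ _).2 ⟨h1, h3, h2, fun d hd a b => h4 d hd b a⟩
  · intro x a b t h h'
    obtain ⟨h1, h2, h3, h4⟩ := (key _ _ _).1 h
    obtain ⟨h5, -, -, h6⟩ := (key _ _ _).1 h'
    exact (key _ _ _).2 ⟨h5, h2, h3, fun d hd e1 e2 => h6 d hd (h4 d hd e1 e2) e2⟩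
  · intro a ha b hb' c hc
    obtain ⟨a', ha', -, ha2⟩ := val a ha
    obtain ⟨b', hb1, -, hb2⟩ := val b hb'
    obtain ⟨c', hc', -, hc2⟩ := val c hc
    rcases three hb ha' hb1 hc' with h | h | h | ⟨x, y, z, h1, h2, h3⟩
    · exact Or.inl ((key _ _ _).2 ⟨ha, hb', hc, fun d hd e1 e2 =>
        (ha2 d hd).2 (h d hd ((hb2 d hd).1 e1) ((hc2 d hd).1 e2))⟩)
    · exact Or.inr (Or.inl ((key _ _ _).2 ⟨hb', ha, hc, fun d hd e1 e2 =>
        (hb2 d hd).2 (h d hd ((ha2 d hd).1 e1) ((hc2 d hd).1 e2))⟩))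
    · exact Or.inr (Or.inr ((key _ _ _).2 ⟨hc, ha, hb', fun d hd e1 e2 =>
        (hc2 d hd).2 (h d hd ((ha2 d hd).1 e1) ((hb2 d hd).1 e2))⟩))
    · exact absurd (htr x y z h1 h2) h3
  · intro y hy z hz
    obtain ⟨y', hy', -, hy2⟩ := val y hy
    obtain ⟨z', hz', -, hz2⟩ := val z hz
    obtain ⟨s, hs1, hs2, -⟩ := hjoin y' hy' z' hz'
    obtain ⟨β, hβ, g0, hg0, hgi⟩ := hs s hs1
    obtain ⟨g, hg, hg'⟩ := comp_mem hM hν hL (hM.trans _ hμ _ hβ) hf hg0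
    refine ⟨β, hβ, g, hg, fun x hx => ?_, fun x x' ξ h h' => ?_⟩
    · obtain ⟨h1, -, -, h4⟩ := (key _ _ _).1 hx
      obtain ⟨x', hx', hx1, hx2⟩ := val x h1
      have h5 := (hx2 s hs1).1 (h4 s hs1 ((hy2 s hs1).2 (hs2 y' (by simp)))
        ((hz2 s hs1).2 (hs2 z' (by simp))))
      obtain ⟨ξ, hξ, -⟩ := hgi.1.2 x' (mem_sep.2 ⟨hx', h5⟩)
      have h6 := (pair_mem_prod.1 (hgi.1.1 hξ)).2
      exact ⟨ξ, h6, (hg' _ _).2 ⟨h1, h6, x', hx', hx1, hξ⟩⟩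
    · obtain ⟨-, -, u, -, a1, a2⟩ := (hg' _ _).1 h
      obtain ⟨-, -, u', -, b1, b2⟩ := (hg' _ _).1 h'
      obtain rfl := hgi.2 _ _ _ a2 b2
      exact hfi.2 _ _ _ a1 b1

end Pool.Agent.H774Z.Ditor
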