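import Pool.Agent.H774Z.Ditor.Abstract
import Pool.Agent.H774Z.Ditor.Defs

/-! The countably closed collapse below a strongly compact cardinal. -/

set_option autoImplicit false

namespace Pool.Agent.H774Z.Ditor

open Cardinal Set Filter Pool.Agent.H30Z.Forc

/-- countable partial systems of injections of the initial segments of `K` into `W` -/
def Levy (K W : Type) [LinearOrder K] : Type :=
  {p : K → K → Option W // {x : K × K | p x.1 x.2 ≠ none}.Countable ∧
    (∀ a b, p a b ≠ none → b < a) ∧ ∀ a b b' i, p a b = some i → p a b' = some i → b = b'}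

section
variable {K W : Type} [LinearOrder K]

instance : Preorder (Levy K W) where
  le q p := ∀ a b i, p.1 a b = some i → q.1 a b = some i
  le_refl _ _ _ _ h := h
  le_trans _ _ _ h1 h2 a b i h := h1 a b i (h2 a b i h)

instance : OrderTop (Levy K W) where
  top := ⟨fun _ _ => none, by simp, by simp, by simp⟩
  le_top _ _ _ _ h := by cases h

theorem levy_closed : SigmaClosed (Levy K W) := by
  classical
  intro s hs
  have key : ∀ a b i, (if h : ∃ n, (s n).1 a b ≠ none then (s h.choose).1 a b else none) = some i ↔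
      ∃ n, (s n).1 a b = some i := by
    intro a b i
    constructor
    · intro hh
      by_cases h : ∃ n, (s n).1 a b ≠ none
      · rw [dif_pos h] at hh; exact ⟨_, hh⟩
      · rw [dif_neg h] at hh; cases hh
    · rintro ⟨n, hn⟩
      have h : ∃ n, (s n).1 a b ≠ none := ⟨n, by rw [hn]; simp⟩
      rw [dif_pos h]
      obtain ⟨t', ht'⟩ := Option.ne_none_iff_exists'.1 h.choose_spec
      have h1 := hs (le_max_left n h.choose) a b i hn
      have h2 := hs (le_max_right n h.choose) a b t' ht'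
      rw [ht', ← h2, h1]
  refine ⟨⟨fun a b => if h : ∃ n, (s n).1 a b ≠ none then (s h.choose).1 a b else none,
    ?_, ?_, ?_⟩, fun n a b i hi => (key a b i).2 ⟨n, hi⟩⟩
  · refine (Set.countable_iUnion fun n => (s n).2.1).mono fun x hx => ?_
    obtain ⟨i, hi⟩ := Option.ne_none_iff_exists'.1 hx
    obtain ⟨n, hn⟩ := (key _ _ i).1 hi
    exact mem_iUnion.2 ⟨n, by simp [hn]⟩
  · intro a b hx
    obtain ⟨i, hi⟩ := Option.ne_none_iff_exists'.1 hx
    obtain ⟨n, hn⟩ := (key _ _ i).1 hi
    exact (s n).2.2.1 a b (by simp [hn])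
  · intro a b b' i h1 h2
    obtain ⟨n, hn⟩ := (key _ _ i).1 h1
    obtain ⟨m, hm⟩ := (key _ _ i).1 h2
    exact (s (max n m)).2.2.2 a b b' i (hs (le_max_left n m) _ _ _ hn) (hs (le_max_right n m) _ _ _ hm)

theorem levy_extend [Uncountable W] (p : Levy K W) {a b : K} (hab : b < a) :
    ∃ q, q ≤ p ∧ ∃ i, q.1 a b = some i := by
  classical
  by_cases h : p.1 a b = none
  swap
  · obtain ⟨i, hi⟩ := Option.ne_none_iff_exists'.1 h
    exact ⟨p, le_rfl, i, hi⟩
  obtain ⟨i, hi⟩ : ∃ i, ∀ b', p.1 a b' ≠ some i := by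
    by_contra hcon
    push Not at hcon
    choose g hg using hcon
    have hc : (univ : Set W).Countable := by
      refine p.2.1.preimage_of_injOn (f := fun i => (a, g i)) ?_ |>.mono ?_
      · intro i _ j _ e
        have e' : g i = g j := (Prod.mk.inj e).2
        have := (hg i).symm.trans (e' ▸ hg j)
        exact Option.some.inj this
      · intro i _
        simp [hg i]
    exact not_countable_univ hc
  refine ⟨⟨fun a' b' => if a' = a ∧ b' = b then some i else p.1 a' b', ?_, ?_, ?_⟩, ?_, i, by simp⟩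
  · refine (p.2.1.insert (a, b)).mono fun x hx => ?_
    by_cases h' : x.1 = a ∧ x.2 = b
    · exact Or.inl (Prod.ext h'.1 h'.2)
    · simp only [mem_ofPred_eq, if_neg h'] at hx
      exact Or.inr hx
  · intro a' b' hx
    by_cases h' : a' = a ∧ b' = b
    · rw [h'.1, h'.2]; exact hab
    · simp only [if_neg h'] at hx
      exact p.2.2.1 _ _ hx
  · intro a' b1 b2 j h1 h2
    by_cases e1 : a' = a ∧ b1 = b <;> by_cases e2 : a' = a ∧ b2 = b
    · rw [e1.2, e2.2]
    · simp only [if_pos e1, if_neg e2] at h1 h2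
      rw [e1.1, ← Option.some.inj h1] at h2
      exact absurd h2 (hi _)
    · simp only [if_neg e1, if_pos e2] at h1 h2
      rw [e2.1, ← Option.some.inj h2] at h1
      exact absurd h1 (hi _)
    · simp only [if_neg e1, if_neg e2] at h1 h2
      exact p.2.2.2 _ _ _ _ h1 h2
  · intro a' b' j hj
    have h' : ¬ (a' = a ∧ b' = b) := by
      rintro ⟨rfl, rfl⟩
      rw [h] at hj; cases hj
    simp only [if_neg h', hj]

theorem ultra_const {X Y : Type} {κ : Cardinal.{0}} (U : Ultrafilter X)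
    [CardinalInterFilter (U : Filter X) κ] (hY : #Y < κ) (g : X → Y) :
    ∃ y, ∀ᶠ ξ in (U : Filter X), g ξ = y := by
  by_contra hh
  push Not at hh
  obtain ⟨ξ, hξ⟩ := ((eventually_cardinal_forall hY).2 hh).exists
  exact hξ _ rfl

theorem levy_red {X : Type} {κ : Cardinal.{0}} (U : Ultrafilter X)
    [CardinalInterFilter (U : Filter X) κ] (h1 : ℵ₁ < κ) (hW : #(Option W) < κ)
    (hK : ∀ a : K, #(Iio a) < κ) (f : X → Levy K W) :
    ∃ r : Levy K W, (∀ p0, (∀ ξ, f ξ ≤ p0) → r ≤ p0) ∧
      ∀ p, p ≤ r → ∀ᶠ ξ in (U : Filter X), ∃ s, s ≤ p ∧ s ≤ f ξ := by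
  classical
  have : CountableInterFilter (U : Filter X) :=
    CardinalInterFilter.toCountableInterFilter _ (aleph0_lt_aleph_one.trans h1)
  choose r hr using fun a b => ultra_const U hW (fun ξ => (f ξ).1 a b)
  refine ⟨⟨r, ?_, ?_, ?_⟩, ?_, ?_⟩
  · by_contra hc
    have h2 : ℵ₁ ≤ #{x : K × K | r x.1 x.2 ≠ none} := by
      rw [← Cardinal.succ_aleph0, Order.succ_le_iff, ← not_le, le_aleph0_iff_set_countable]
      exact hc
    obtain ⟨S, hS, hS'⟩ := le_mk_iff_exists_subset.1 h2
    obtain ⟨ξ, hξ⟩ := ((eventually_cardinal_ball (S := S) (hS'.trans_lt h1)).2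
      fun x _ => hr x.1 x.2).exists
    have h3 : S.Countable := (f ξ).2.1.mono fun x hx => by
      show (f ξ).1 x.1 x.2 ≠ none
      rw [hξ x hx]; exact hS hx
    rw [← le_aleph0_iff_set_countable, hS'] at h3
    exact absurd h3 (not_le.2 aleph0_lt_aleph_one)
  · intro a b hab
    obtain ⟨ξ, hξ⟩ := (hr a b).exists
    exact (f ξ).2.2.1 a b (by rw [hξ]; exact hab)
  · intro a b b' i e1 e2
    obtain ⟨ξ, h2, h3⟩ := ((hr a b).and (hr a b')).exists
    exact (f ξ).2.2.2 a b b' i (h2.trans e1) (h3.trans e2)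
  · intro p0 hp0 a b i hi
    obtain ⟨ξ, hξ⟩ := (hr a b).exists
    exact hξ.symm.trans (hp0 ξ a b i hi)
  · intro p hp
    have hrows : (Prod.fst '' {x : K × K | p.1 x.1 x.2 ≠ none}).Countable := p.2.1.image _
    set A := Prod.fst '' {x : K × K | p.1 x.1 x.2 ≠ none} with hA
    have h2 : ∀ᶠ ξ in (U : Filter X), ∀ a ∈ A, ∀ b ∈ Iio a, (f ξ).1 a b = r a b :=
      (eventually_countable_ball hrows).2 fun a _ =>
        (eventually_cardinal_ball (hK a)).2 fun b _ => hr a b
    filter_upwards [h2] with ξ hξ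
    refine ⟨⟨fun a b => if a ∈ A then p.1 a b else (f ξ).1 a b, ?_, ?_, ?_⟩, ?_, ?_⟩
    · refine (p.2.1.union (f ξ).2.1).mono fun x hx => ?_
      by_cases h : x.1 ∈ A
      · simp only [mem_ofPred_eq, if_pos h] at hx; exact Or.inl hx
      · simp only [mem_ofPred_eq, if_neg h] at hx; exact Or.inr hx
    · intro a b hx
      by_cases h : a ∈ A
      · simp only [if_pos h] at hx; exact p.2.2.1 a b hx
      · simp only [if_neg h] at hx; exact (f ξ).2.2.1 a b hx
    · intro a b b' i e1 e2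
      by_cases h : a ∈ A
      · simp only [if_pos h] at e1 e2; exact p.2.2.2 a b b' i e1 e2
      · simp only [if_neg h] at e1 e2; exact (f ξ).2.2.2 a b b' i e1 e2
    · intro a b i hi
      have h : a ∈ A := ⟨(a, b), by simp [hi], rfl⟩
      simp only [if_pos h, hi]
    · intro a b i hi
      by_cases h : a ∈ A
      · simp only [if_pos h]
        have hb : b < a := (f ξ).2.2.1 a b (by simp [hi])
        exact hp a b i ((hξ a h b hb).symm.trans hi)
      · simp only [if_neg h, hi]

theorem mk_levy {κ : Cardinal.{0}} (h0 : ℵ₀ < κ) (hreg : κ.IsRegular) (hs : IsStrongPrelimit κ)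
    (hK : #K = κ) (hW : #W ≤ κ) : #(Levy K W) ≤ κ := by
  have hα : #((K × K) × Option W) = κ := by
    have h1 : #(Option W) ≤ κ := by
      rw [mk_option]; exact add_le_of_le h0.le hW (one_le_aleph0.trans h0.le)
    have h2 : #(Option W) ≠ 0 := mk_ne_zero _
    simp only [mk_prod, lift_id, hK, mul_eq_self h0.le]
    exact mul_eq_left h0.le h1 h2
  have h3 := mk_subset_mk_lt_cof (α := (K × K) × Option W) (by rw [hα]; exact hs)
  rw [hα, hreg.cof_ord] at h3
  rw [← h3]
  refine mk_le_of_injective (f := fun p => ⟨{x | p.1 x.1.1 x.1.2 = x.2 ∧ x.2 ≠ none}, ?_⟩) ?_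
  · refine lt_of_le_of_lt ?_ h0
    rw [le_aleph0_iff_set_countable]
    refine (p.2.1.image fun x => (x, p.1 x.1 x.2)).mono ?_
    rintro ⟨x, v⟩ ⟨e1, e2⟩
    have e1' : p.1 x.1 x.2 = v := e1
    have e2' : v ≠ none := e2
    exact ⟨x, fun h => e2' (e1'.symm.trans h), by rw [← e1']⟩
  · intro p q e
    have e' : {x : (K × K) × Option W | p.1 x.1.1 x.1.2 = x.2 ∧ x.2 ≠ none} =
        {x | q.1 x.1.1 x.1.2 = x.2 ∧ x.2 ≠ none} := congrArg Subtype.val e
    apply Subtype.ext
    funext a b
    by_cases h : p.1 a b = none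
    · by_cases h' : q.1 a b = none
      · rw [h, h']
      · have : ((a, b), q.1 a b) ∈ {x : (K × K) × Option W | p.1 x.1.1 x.1.2 = x.2 ∧ x.2 ≠ none} := by
          rw [e']; exact ⟨rfl, h'⟩
        exact this.1
    · have : ((a, b), p.1 a b) ∈ {x : (K × K) × Option W | q.1 x.1.1 x.1.2 = x.2 ∧ x.2 ≠ none} := by
        rw [← e']; exact ⟨rfl, h⟩
      exact this.1.symm

end

theorem exists_uniform {κ : Cardinal.{0}} (hκ : StronglyCompact κ) {ν : Cardinal.{0}}
    (hν : ν.IsRegular) (hle : κ ≤ ν) (X : Type) (hX : #X = ν) :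
    ∃ U : Ultrafilter X, CardinalInterFilter (U : Filter X) κ ∧
      ∀ S : Set X, #S < ν → ∀ᶠ ξ in (U : Filter X), ξ ∉ S := by
  obtain ⟨U, h1, h2⟩ := hκ.2.2 X (cocardinal X hν)
    (CardinalInterFilter.of_cardinalInterFilter_of_le _ hle) (by
      rw [← forall_mem_nonempty_iff_neBot]
      intro s hs
      rw [mem_cocardinal] at hs
      by_contra hne
      rw [not_nonempty_iff_eq_empty] at hne
      rw [hne, compl_empty, mk_univ, hX] at hs
      exact lt_irrefl _ hs)
  exact ⟨U, h2, fun S hS => h1 (eventually_cocardinal_notMem_of_card_lt hS)⟩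

theorem StronglyCompact.strong {κ : Cardinal.{0}} (hκ : StronglyCompact κ) :
    IsStrongPrelimit κ := by
  intro μ hμ
  by_contra hcon
  have h1 : #κ.out ≤ #(μ.out → Bool) := by simpa using not_lt.1 hcon
  obtain ⟨h⟩ := (Cardinal.le_def _ _).1 h1
  obtain ⟨U, hU, hU'⟩ := exists_uniform hκ hκ.2.1 le_rfl κ.out (mk_out κ)
  have h2 : #Bool < κ := by
    rw [mk_bool]; exact (natCast_lt_aleph0 (n := 2)).trans hκ.1
  choose b hb using fun i => ultra_const U h2 (fun k => h k i)
  have h3 := (eventually_cardinal_forall (by simpa using hμ)).2 hb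
  have h4 : #{k | h k = b} < κ := by
    refine lt_of_le_of_lt (mk_le_one_iff_set_subsingleton.2 ?_) (one_lt_aleph0.trans hκ.1)
    intro k hk k' hk'
    exact h.injective (hk.trans hk'.symm)
  obtain ⟨k, h5, h6⟩ := (h3.and (hU' _ h4)).exists
  exact h6 (funext h5)

theorem StronglyCompact.aleph_one_lt {κ : Cardinal.{0}} (hκ : StronglyCompact κ) : ℵ₁ < κ :=
  lt_of_le_of_lt (by rw [← Cardinal.succ_aleph0]; exact Order.succ_le_of_lt (cantor _))
    (hκ.strong hκ.1)

end Pool.Agent.H774Z.Ditor
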