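import Pool.Agent.H774Z.Ditor.Inner

/-! The model: collapse a strongly compact cardinal to `ℵ₂`. -/

set_option autoImplicit false

namespace Pool.Agent.H774Z.Ditor

open Cardinal CohenE ZFSet Pool.Agent.H30Z.Forc Pool.Agent.H30Z

/-- the finite successors of `κ` -/
noncomputable def lam (κ : Cardinal.{0}) : ℕ → Cardinal.{0}
  | 0 => κ
  | n + 1 => Order.succ (lam κ n)

/-- `κ^{+ω}` -/
noncomputable def Lam (κ : Cardinal.{0}) : Cardinal.{0} := ⨆ n, lam κ n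

/-- `κ^{+ω+1}` -/
noncomputable def nu (κ : Cardinal.{0}) : Cardinal.{0} := Order.succ (Lam κ)

/-- the forcing -/
abbrev PP (κ : Cardinal.{0}) : Type := Levy κ.ord.ToType (ℵ₁ : Cardinal.{0}).ord.ToType

variable {κ : Cardinal.{0}}

theorem lam_mono : StrictMono (lam κ) := strictMono_nat_of_lt_succ fun _ => Order.lt_succ _

theorem lam_le (n : ℕ) : lam κ n ≤ Lam κ := le_ciSup bddAbove_of_small n

theorem lam_lt (n : ℕ) : lam κ n < Lam κ := (lam_mono (Nat.lt_succ_self n)).trans_le (lam_le _)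

theorem exists_lam {c : Cardinal.{0}} (h : c < Lam κ) : ∃ n, c < lam κ n :=
  exists_lt_of_lt_ciSup h

theorem le_lam (n : ℕ) : κ ≤ lam κ n := lam_mono.monotone (Nat.zero_le n)

theorem mk_PP (hκ : StronglyCompact κ) : #(PP κ) ≤ κ :=
  mk_levy hκ.1 hκ.2.1 hκ.strong (mk_ord_toType κ) (by rw [mk_ord_toType]; exact hκ.aleph_one_lt.le)

theorem mk_Iio_lt' {c : Cardinal.{0}} (i : c.ord.ToType) : #(Set.Iio i) < c := by
  simpa using mk_Iio_lt i (by simp)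

theorem no_tern (hκ : StronglyCompact κ) (p0 : PP κ)
    (C : {p : PP κ // p ≤ p0} → (nu κ).ord.ToType → (nu κ).ord.ToType → (nu κ).ord.ToType → Prop) :
    ¬ Tern (lam κ) C := by
  intro h
  have h0 : ℵ₀ ≤ Lam κ := hκ.1.le.trans (lam_le 0)
  obtain ⟨U, hU, hU'⟩ := exists_uniform hκ (ν := nu κ) (isRegular_succ h0)
    ((lam_le 0).trans (Order.le_succ _)) (nu κ).ord.ToType (mk_ord_toType _)
  have : CountableInterFilter (U : Filter (nu κ).ord.ToType) :=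
    CardinalInterFilter.toCountableInterFilter _ hκ.1
  have : Nonempty {p : PP κ // p ≤ p0} := ⟨⟨p0, le_rfl⟩⟩
  have hI : ∀ ξ : (nu κ).ord.ToType, #(Set.Iio ξ) < nu κ := fun ξ => mk_Iio_lt' ξ
  refine abstract (P := {p : PP κ // p ≤ p0}) ?_ U (Λ := Lam κ) hκ.1.le
    ((mk_subtype_le _).trans (mk_PP hκ)) lam_mono lam_le (by
      rw [mk_ord_toType]; exact Order.lt_succ _) (fun ξ => Set.Iio ξ)
    (fun ξ => Order.lt_succ_iff.1 (hI ξ)) ?_ ?_ h
  · intro s hs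
    obtain ⟨q, hq⟩ := levy_closed (fun n => (s n).1) (fun _ _ e => hs e)
    exact ⟨⟨q, (hq 0).trans (s 0).2⟩, hq⟩
  · intro a
    have h1 : #(Set.Iic a) < nu κ := by
      rw [← Set.Iio_insert]
      refine mk_insert_le.trans_lt (add_lt_of_lt (h0.trans (Order.le_succ _)) (hI a) ?_)
      exact one_lt_aleph0.trans_le (h0.trans (Order.le_succ _))
    filter_upwards [hU' _ h1] with ξ hξ
    exact Set.mem_Iio.2 (not_le.1 fun e => hξ (Set.mem_Iic.2 e))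
  · intro f
    obtain ⟨r, h1, h2⟩ := levy_red U hκ.aleph_one_lt (by
      rw [mk_option, mk_ord_toType]
      exact add_lt_of_lt hκ.1.le hκ.aleph_one_lt (one_lt_aleph0.trans hκ.1))
      (fun a => mk_Iio_lt' a) (fun ξ => (f ξ).1)
    refine ⟨⟨r, h1 p0 fun ξ => (f ξ).2⟩, fun p hp => ?_⟩
    filter_upwards [h2 p.1 hp] with ξ ⟨s, a, b⟩
    exact ⟨⟨s, a.trans p.2⟩, a, b⟩

section
variable {P : Type} [Preorder P] [OrderTop P] {N : Set (Nm P)} {G : Set P} {o : Ordinal.{0}}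

/-- forcing that a triple is in the relation -/
def CC (T : Nm P) (p : P) (x y z : o.ToType) : Prop :=
  FMem (opN (on P (el x)) (opN (on P (el y)) (on P (el z)))) T p

/-- a witness for the failure of one of the properties of the relation -/
def reqT (P : Type) [Preorder P] [OrderTop P] (o : Ordinal.{0}) (lam : ℕ → Cardinal.{0}) : Req P :=
  fun l q τ => ∃ x a b t : o.ToType,
    τ = pairN (pairN (on P (el x)) (on P (el a))) (pairN (on P (el b)) (on P (el t))) ∧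
    ((CC (lv l 0) q x a b ∧ ∀ r, r ≤ q → ¬ CC (lv l 0) r x b a) ∨
    (CC (lv l 0) q x a b ∧ CC (lv l 0) q t x b ∧ ∀ r, r ≤ q → ¬ CC (lv l 0) r t a b) ∨
    (∀ r, r ≤ q → ¬ (CC (lv l 0) r x a b ∨ CC (lv l 0) r a x b ∨ CC (lv l 0) r b x a)) ∨
    ∀ r, r ≤ q → ∀ n, ¬ #{x | ∃ s, s ≤ r ∧ CC (lv l 0) s x a b} ≤ lam n)

omit [OrderTop P] in
theorem fmem_of_dense {σ τ : Nm P} {p : P} (h : ∀ q, q ≤ p → ∃ r, r ≤ q ∧ FMem σ τ r) :
    FMem σ τ p := by
  intro q hq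
  obtain ⟨r, hr, h1⟩ := h q hq
  obtain ⟨s, hs, h2⟩ := h1 r le_rfl
  exact ⟨s, hs.trans hr, h2⟩

theorem reqT_dense {lam : ℕ → Cardinal.{0}}
    (h : ∀ (p0 : P) (C : {p : P // p ≤ p0} → o.ToType → o.ToType → o.ToType → Prop),
      ¬ Tern lam C) : (reqT P o lam).Dense := by
  intro l p0
  by_contra hcon
  have h1 : ∀ q, q ≤ p0 → ∀ τ, ¬ reqT P o lam l q τ := fun q hq τ hh => hcon ⟨q, hq, τ, hh⟩
  refine h p0 (fun p => CC (lv l 0) p.1) ⟨fun p q x y z a b => FMem.mono a b, ?_, ?_, ?_, ?_⟩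
  · intro p x y z a
    refine fmem_of_dense fun q hq => ?_
    by_contra hh
    exact h1 q (hq.trans p.2) _ ⟨x, y, z, x, rfl, Or.inl ⟨FMem.mono a hq,
      fun r hr b => hh ⟨r, hr, b⟩⟩⟩
  · intro p x a b t e1 e2
    refine fmem_of_dense fun q hq => ?_
    by_contra hh
    exact h1 q (hq.trans p.2) _ ⟨x, a, b, t, rfl, Or.inr (Or.inl ⟨FMem.mono e1 hq,
      FMem.mono e2 hq, fun r hr b => hh ⟨r, hr, b⟩⟩)⟩
  · intro p a b c
    by_contra hh
    exact h1 p.1 p.2 _ ⟨a, b, c, a, rfl, Or.inr (Or.inr (Or.inl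
      fun r hr e => hh ⟨⟨r, hr.trans p.2⟩, hr, e⟩))⟩
  · intro p y z
    by_contra hh
    refine h1 p.1 p.2 _ ⟨y, y, z, y, rfl, Or.inr (Or.inr (Or.inr
      fun r hr n e => hh ⟨⟨r, hr.trans p.2⟩, hr, n, le_trans (mk_le_mk_of_subset ?_) e⟩))⟩
    rintro x ⟨s, hs, hx⟩
    exact ⟨s.1, hs, hx⟩

theorem CC_iff (h : Pair N G) {T : Nm P} (hT : T ∈ N) {x y z : o.ToType} (hx : on P (el x) ∈ N)
    (hy : on P (el y) ∈ N) (hz : on P (el z) ∈ N) :
    pair (co N (el x)) (pair (co N (el y)) (co N (el z))) ∈ val N G T ↔ ∃ p ∈ G, CC T p x y z := by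
  rw [← val_on h, ← val_on h, ← val_on h, ← h.core.val_op hy hz]
  exact pair_mem_iff h hx (h.core.op_mem hy hz) hT

/-- the test for the size of an interval -/
def DT (P : Type) [Preorder P] [OrderTop P] (o : Ordinal.{0}) :
    Nm P → Nm P → o.ToType → P → Prop := fun σ T x r => FMem (opN (on P (el x)) σ) T r

theorem no_lattice (h : Pair N G) (hc : Meets N G (reqCan P)) {lam : ℕ → Cardinal.{0}}
    (hT : Meets N G (reqT P o lam)) (hD : Meets N G (reqInj (DT P o))) {m : Ordinal.{0}}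
    (hm : on P m ∈ N) (ho : on P o ∈ N) (hb : ∀ b < m, ∃ n, #P * b.card ≤ lam n) :
    ∀ L ∈ Ext N G, ∀ R ∈ Ext N G, IsJoinSemilattice L R → BreadthLE L R 2 →
      LeIn (Ext N G) (co N o) L → ∃ a ∈ L, ¬ ∃ β ∈ co N m, LeIn (Ext N G) (down L R a) β := by
  intro L hL R hR hj hbr hle
  by_contra hcon
  obtain ⟨_, ⟨T, hTN, rfl⟩, h1, h2, h3, h4⟩ := inner h.ctm_ext (co_mem_ext h hm) (co_mem_ext h ho)
    hL hR hj hbr hle (fun a ha => by_contra fun hh => hcon ⟨a, ha, hh⟩)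
  obtain ⟨q, hq, τ, hτ, x, a, b, t, rfl, hh⟩ := hT [T] (by simpa using hTN)
  obtain ⟨c1, c2⟩ := h.core.comp _ _ hτ
  obtain ⟨hx, ha⟩ := h.core.comp _ _ c1
  obtain ⟨hb', ht⟩ := h.core.comp _ _ c2
  have hin : ∀ {y : o.ToType}, on P (el y) ∈ N → co N (el y) ∈ co N o :=
    fun hy => (co_mem_iff h hy ho).2 (el_lt _)
  rcases hh with ⟨e1, e2⟩ | ⟨e1, e2, e3⟩ | e | e
  · obtain ⟨p, hp, e3⟩ := (CC_iff h hTN hx hb' ha).1
      (h1 _ _ _ ((CC_iff h hTN hx ha hb').2 ⟨q, hq, e1⟩))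
    obtain ⟨r, -, b1, b2⟩ := h.core.filt.dir q hq p hp
    exact e2 r b1 (FMem.mono e3 b2)
  · obtain ⟨p, hp, e4⟩ := (CC_iff h hTN ht ha hb').1
      (h2 _ _ _ _ ((CC_iff h hTN hx ha hb').2 ⟨q, hq, e1⟩) ((CC_iff h hTN ht hx hb').2 ⟨q, hq, e2⟩))
    obtain ⟨r, -, b1, b2⟩ := h.core.filt.dir q hq p hp
    exact e3 r b1 (FMem.mono e4 b2)
  · rcases h3 _ (hin hx) _ (hin ha) _ (hin hb') with e1 | e1 | e1
    · obtain ⟨p, hp, e4⟩ := (CC_iff h hTN hx ha hb').1 e1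
      obtain ⟨r, -, b1, b2⟩ := h.core.filt.dir q hq p hp
      exact e r b1 (Or.inl (FMem.mono e4 b2))
    · obtain ⟨p, hp, e4⟩ := (CC_iff h hTN ha hx hb').1 e1
      obtain ⟨r, -, b1, b2⟩ := h.core.filt.dir q hq p hp
      exact e r b1 (Or.inr (Or.inl (FMem.mono e4 b2)))
    · obtain ⟨p, hp, e4⟩ := (CC_iff h hTN hb' hx ha).1 e1
      obtain ⟨r, -, b1, b2⟩ := h.core.filt.dir q hq p hp
      exact e r b1 (Or.inr (Or.inr (FMem.mono e4 b2)))
  · obtain ⟨β, hβ, _, ⟨g, hg, rfl⟩, g1, g2⟩ := h4 _ (hin ha) _ (hin hb')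
    obtain ⟨c, hc1, hc2, rfl⟩ := mem_co h hc hm hβ
    obtain ⟨p, hp, e1⟩ := inj_lemma h hc hD (h.core.op_mem ha hb') hTN hg hc2
      (fun y hy r hr e => g1 _ ((CC_iff h hTN hy ha hb').2 ⟨r, hr, e⟩)) g2
    obtain ⟨n, hn⟩ := hb c hc1
    obtain ⟨r, -, b1, b2⟩ := h.core.filt.dir q hq p hp
    refine e r b1 n (le_trans (mk_le_mk_of_subset ?_) (e1.trans hn))
    rintro y ⟨s, hs, hy⟩
    exact ⟨s, hs.trans b2, hy⟩

end

section
variable {k w : Ordinal.{0}} {N : Set (Nm (Levy k.ToType w.ToType))}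
  {G : Set (Levy k.ToType w.ToType)}

/-- the name of the generic injection of an initial segment -/
noncomputable def injN (w : Ordinal.{0}) (a : k.ToType) : Nm (Levy k.ToType w.ToType) :=
  .mk {x : Levy k.ToType w.ToType × k.ToType × w.ToType // x.1.1 a x.2.1 = some x.2.2}
    (fun x => opN (on _ (el x.1.2.1)) (on _ (el x.1.2.2))) (fun x => x.1.1)

open Classical in
/-- closure under the names of the generic injections -/
noncomputable def reqCol (k w : Ordinal.{0}) : Req (Levy k.ToType w.ToType) :=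
  clos fun l => if h : ∃ a : k.ToType, lv l 0 = on _ (el a) then injN w h.choose else emptyN

/-- the generic injections are total -/
def reqTot (k w : Ordinal.{0}) : Req (Levy k.ToType w.ToType) := fun l q τ =>
  ∀ a b : k.ToType, lv l 0 = on _ (el a) → lv l 1 = on _ (el b) → b < a →
    ∃ i, τ = on _ (el i) ∧ q.1 a b = some i

theorem reqTot_dense [Uncountable w.ToType] : (reqTot k w).Dense := by
  intro l p
  by_cases h : ∃ a b : k.ToType, lv l 0 = on _ (el a) ∧ lv l 1 = on _ (el b) ∧ b < a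
  · obtain ⟨a, b, h1, h2, h3⟩ := h
    obtain ⟨q, hq, i, hi⟩ := levy_extend p h3
    refine ⟨q, hq, on _ (el i), fun a' b' e1 e2 _ => ⟨i, rfl, ?_⟩⟩
    rw [← el_inj (on_inj (h1.symm.trans e1)), ← el_inj (on_inj (h2.symm.trans e2))]
    exact hi
  · exact ⟨p, le_rfl, emptyN, fun a b e1 e2 e3 => absurd ⟨a, b, e1, e2, e3⟩ h⟩

theorem collapse (h : Pair N G) (hc : Meets N G (reqCan _)) (h1 : Meets N G (reqCol k w))
    (h2 : Meets N G (reqTot k w)) (hw : on _ w ∈ N) {c : Ordinal.{0}} (hck : c < k)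
    (hcN : on _ c ∈ N) : LeIn (Ext N G) (co N c) (co N w) := by
  obtain ⟨a, rfl⟩ := el_surj hck
  have h3 : injN w a ∈ N := by
    have h4 := h1.clos [on _ (el a)] (by simpa using hcN)
    have h5 : ∃ a' : k.ToType, lv [on (Levy k.ToType w.ToType) (el a)] 0 = on _ (el a') := ⟨a, rfl⟩
    rw [dif_pos h5, ← el_inj (on_inj h5.choose_spec)] at h4
    exact h4
  have key : ∀ z, z ∈ val N G (injN w a) ↔ ∃ p ∈ G, ∃ b i, p.1 a b = some i ∧ on _ (el b) ∈ N ∧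
      on _ (el i) ∈ N ∧ z = pair (co N (el b)) (co N (el i)) := by
    intro z
    rw [Forc.mem_val]
    constructor
    · rintro ⟨⟨⟨p, b, i⟩, e⟩, a1, a2, rfl⟩
      obtain ⟨a3, a4⟩ := h.core.op_comp a1
      refine ⟨p, a2, b, i, e, a3, a4, ?_⟩
      rw [← val_on h, ← val_on h]
      exact h.core.val_op a3 a4
    · rintro ⟨p, hp, b, i, e, a3, a4, rfl⟩
      refine ⟨⟨(p, b, i), e⟩, h.core.op_mem a3 a4, hp, ?_⟩
      rw [← val_on h, ← val_on h]
      exact (h.core.val_op a3 a4).symm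
  refine ⟨_, ⟨_, h3, rfl⟩, ⟨fun z hz => ?_, fun x hx => ?_⟩, fun x x' y e1 e2 => ?_⟩
  · obtain ⟨p, -, b, i, e, a3, a4, rfl⟩ := (key z).1 hz
    exact pair_mem_prod.2 ⟨(co_mem_iff h a3 hcN).2 (el_lt_el.2 (p.2.2.1 a b (by simp [e]))),
      (co_mem_iff h a4 hw).2 (el_lt i)⟩
  · obtain ⟨c, hc1, hc2, rfl⟩ := mem_co h hc hcN hx
    obtain ⟨b, rfl⟩ := el_surj (hc1.trans hck)
    obtain ⟨q, hq, τ, hτ, hh⟩ := h2 [on _ (el a), on _ (el b)] (by simp [hcN, hc2])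
    obtain ⟨i, rfl, hi⟩ := hh a b rfl rfl (el_lt_el.1 hc1)
    refine ⟨_, (key _).2 ⟨q, hq, b, i, hi, hc2, hτ, rfl⟩, fun y hy => ?_⟩
    obtain ⟨p, hp, b', i', e, a3, a4, a5⟩ := (key _).1 hy
    rw [pair_inj] at a5
    obtain rfl := el_inj (co_inj h hc2 a3 a5.1)
    obtain ⟨r, -, b1, b2⟩ := h.core.filt.dir q hq p hp
    rw [a5.2, Option.some.inj ((b1 _ _ _ hi).symm.trans (b2 _ _ _ e))]
  · obtain ⟨p, hp, b, i, e, a3, a4, a5⟩ := (key _).1 e1
    obtain ⟨q, hq, b', i', e', b3, b4, b5⟩ := (key _).1 e2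
    rw [pair_inj] at a5 b5
    obtain rfl := el_inj (co_inj h a4 b4 (a5.2.symm.trans b5.2))
    obtain ⟨r, -, b1, b2⟩ := h.core.filt.dir q hq p hp
    rw [a5.1, b5.1, r.2.2.2 a b b' i (b2 _ _ _ e) (b1 _ _ _ e')]

end

theorem main (hκ : StronglyCompact κ) : ∃ W : Set ZFSet.{0}, CTM W ∧
    ∃ μ ν, IsAlephOmega W μ ∧ IsSuccCard W μ ν ∧ ∀ L ∈ W, ∀ R ∈ W, IsJoinSemilattice L R →
      BreadthLE L R 2 → LeIn W ν L → ∃ a ∈ L, ¬ ∃ β ∈ μ, LeIn W (down L R a) β := by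
  have : Uncountable (ℵ₁ : Cardinal.{0}).ord.ToType := by
    rw [← aleph0_lt_mk_iff, mk_ord_toType]; exact aleph0_lt_aleph_one
  let S : Set Cardinal.{0} := {ℵ₀, ℵ₁, Lam κ, nu κ} ∪ Set.range (lam κ)
  obtain ⟨N, G, h, hR⟩ := exists_pair (P := PP κ)
    ({reqCan _, reqInj (DCard _ (nu κ).ord), reqInj (DT _ (nu κ).ord), reqCol _ _, reqTot _ _,
      reqT _ (nu κ).ord (lam κ)} ∪ (fun c => clos fun _ => on _ c.ord) '' S)
    ((Set.toFinite _).countable.union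
      (((Set.toFinite _).countable.union (Set.countable_range _)).image _)) (by
      rintro R ((rfl | rfl | rfl | rfl | rfl | rfl) | ⟨c, -, rfl⟩)
      · exact clos_dense _
      · exact reqInj_dense _
      · exact reqInj_dense _
      · exact clos_dense _
      · exact reqTot_dense
      · exact reqT_dense (no_tern hκ)
      · exact clos_dense _)
  have hc := hR (reqCan _) (Or.inl (by simp))
  have hD := hR (reqInj (DCard _ (nu κ).ord)) (Or.inl (by simp))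
  have hD' := hR (reqInj (DT _ (nu κ).ord)) (Or.inl (by simp))
  have hC := hR (reqCol _ _) (Or.inl (by simp))
  have hC' := hR (reqTot _ _) (Or.inl (by simp))
  have hT := hR (reqT _ (nu κ).ord (lam κ)) (Or.inl (by simp))
  have hS : ∀ c ∈ S, on (PP κ) c.ord ∈ N := fun c hc =>
    (hR _ (Or.inr ⟨c, hc, rfl⟩)).clos [] (by simp)
  have n0 := hS ℵ₀ (Or.inl (by simp))
  have n1 := hS ℵ₁ (Or.inl (by simp))
  have nL := hS (Lam κ) (Or.inl (by simp))
  have nn := hS (nu κ) (Or.inl (by simp))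
  have nl := fun n => hS (lam κ n) (Or.inr ⟨n, rfl⟩)
  have hLn : Lam κ < nu κ := Order.lt_succ _
  have pres : ∀ c, κ < c → c ≤ nu κ → on (PP κ) c.ord ∈ N → CardIn (Ext N G) (co N c.ord) :=
    fun c h1 h2 h3 => card_preserved h hc hD (hκ.1.le.trans h1.le) ((mk_PP hκ).trans_lt h1)
      (ord_le_ord.2 h2) h3
  have hω : co N (ℵ₀ : Cardinal.{0}).ord = ZFSet.omega := by
    rw [ord_aleph0] at n0 ⊢
    exact co_omega h n0
  refine ⟨Ext N G, h.ctm_ext, co N (Lam κ).ord, co N (nu κ).ord,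
    ⟨⟨pres _ (lam_lt 0) hLn.le nL, ?_, ?_⟩, ?_⟩,
    ⟨pres _ ((lam_lt 0).trans hLn) le_rfl nn, (co_mem_iff h nL nn).2 (ord_lt_ord.2 hLn), ?_⟩,
    no_lattice h hc hT hD' nL nn ?_⟩
  · rw [← hω]
    exact (co_mem_iff h n0 nL).2 (ord_lt_ord.2 (hκ.1.trans (lam_lt 0)))
  · intro β hβ
    obtain ⟨b, hb, hbN, rfl⟩ := mem_co h hc nL hβ
    obtain ⟨n, hn⟩ := exists_lam (lt_ord.1 hb)
    refine ⟨_, (co_mem_iff h (nl (n + 1)) nL).2 (ord_lt_ord.2 (lam_lt _)),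
      pres _ ((le_lam n).trans_lt (lam_mono (Nat.lt_succ_self n))) ((lam_le _).trans hLn.le) (nl _),
      (co_mem_iff h hbN (nl _)).2 (lt_ord.2 (hn.trans (lam_mono (Nat.lt_succ_self n))))⟩
  · rintro c hcm ⟨c1, c2, c3⟩
    obtain ⟨a, ha, haN, rfl⟩ := mem_co h hc nL hcm
    have ia := initial_of_card h haN c1
    have gap : ∀ γ : Cardinal.{0}, γ < a.card → on (PP κ) γ.ord ∈ N →
        ∃ δ, γ < δ ∧ δ < a.card ∧ (δ ≤ ℵ₁ ∨ κ ≤ δ) := by
      intro γ hγ hγN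
      obtain ⟨d, d1, d2, d3⟩ := c3 _ ((co_mem_iff h hγN haN).2 (by rw [← ia]; exact ord_lt_ord.2 hγ))
      obtain ⟨b, hb, hbN, rfl⟩ := mem_co h hc haN d1
      have ib := initial_of_card h hbN d2
      rw [co_mem_iff h hγN hbN, ← ib, ord_lt_ord] at d3
      refine ⟨b.card, d3, by rw [← lt_ord, ia]; exact hb, ?_⟩
      by_contra hh
      rw [not_or, not_le, not_le] at hh
      refine d2.2.2 _ ((co_mem_iff h n1 hbN).2 (by rw [← ib]; exact ord_lt_ord.2 hh.1)) ?_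
      exact collapse h hc hC hC' n1 (lt_ord.2 hh.2) hbN
    have a0 : ℵ₀ < a.card := by
      rw [← hω, co_mem_iff h n0 haN, ← ia, ord_lt_ord] at c2
      exact c2
    have a1 : ℵ₁ < a.card := by
      obtain ⟨δ, d1, d2, -⟩ := gap _ a0 n0
      rw [← Cardinal.succ_aleph0]
      exact (Order.succ_le_of_lt d1).trans_lt d2
    have a2 : ∀ n, lam κ n < a.card := by
      intro n
      induction n with
      | zero =>
        obtain ⟨δ, d1, d2, d3 | d3⟩ := gap _ a1 n1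
        · exact absurd d1 (not_lt.2 d3)
        · exact d3.trans_lt d2
      | succ n ih =>
        obtain ⟨δ, d1, d2, -⟩ := gap _ ih (nl n)
        exact (Order.succ_le_of_lt d1).trans_lt d2
    obtain ⟨n, hn⟩ := exists_lam (lt_ord.1 ha)
    exact lt_asymm hn (a2 n)
  · intro c c1 c2 c3
    obtain ⟨a, ha, haN, rfl⟩ := mem_co h hc nn c1
    rw [co_mem_iff h nL haN, ← initial_of_card h haN c3, ord_lt_ord] at c2
    exact absurd (Order.lt_succ_iff.1 (lt_ord.1 ha)) (not_le.2 c2)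
  · intro b hb
    obtain ⟨n, hn⟩ := exists_lam (lt_ord.1 hb)
    exact ⟨n, (mul_le_mul' ((mk_PP hκ).trans (le_lam n)) hn.le).trans
      (mul_eq_self (hκ.1.le.trans (le_lam n))).le⟩

end Pool.Agent.H774Z.Ditor
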