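import Pool.Agent.H774Z.Ditor.Levy
import Pool.Agent.H30Z.AP.Omega1

/-! Names of ordinals, and injections in a generic extension. -/

set_option autoImplicit false

namespace Pool.Agent.H774Z.Ditor

open Cardinal CohenE ZFSet Pool.Agent.H30Z.Forc Pool.Agent.H30Z

/-- the ordinal of an element of `o.ToType` -/
noncomputable def el {o : Ordinal.{0}} (x : o.ToType) : Ordinal.{0} := (Ordinal.ToType.mk.symm x).1

theorem el_lt {o : Ordinal.{0}} (x : o.ToType) : el x < o := (Ordinal.ToType.mk.symm x).2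

theorem el_lt_el {o : Ordinal.{0}} {x y : o.ToType} : el x < el y ↔ x < y :=
  Ordinal.ToType.mk.symm.lt_iff_lt

theorem el_inj {o : Ordinal.{0}} : Function.Injective (el (o := o)) := fun _ _ h =>
  Ordinal.ToType.mk.symm.injective (Subtype.ext h)

theorem el_surj {o a : Ordinal.{0}} (h : a < o) : ∃ x : o.ToType, el x = a :=
  ⟨Ordinal.ToType.mk ⟨a, h⟩, by simp [el]⟩

theorem card_le_mk_el {o c : Ordinal.{0}} (h : c ≤ o) : c.card ≤ #{x : o.ToType | el x < c} := by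
  choose g hg using fun i : c.ToType => el_surj ((el_lt i).trans_le h)
  rw [← mk_toType]
  refine mk_le_of_injective (f := fun i => ⟨g i, ?_⟩) fun i j e => ?_
  · show el (g i) < c
    rw [hg]; exact el_lt i
  · have e' : g i = g j := congrArg Subtype.val e
    exact el_inj (by rw [← hg i, ← hg j, e'])

theorem omega_toZFSet : Ordinal.omega0.{0}.toZFSet = ZFSet.omega := by
  have h : ∀ n : ℕ, (n : Ordinal.{0}).toZFSet = nat n := by
    intro n
    induction n with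
    | zero => simp [nat]
    | succ n ih => rw [Nat.cast_succ, Ordinal.toZFSet_add_one, ih, nat]
  ext z
  rw [Ordinal.mem_toZFSet_iff, mem_omega]
  constructor
  · rintro ⟨a, ha, rfl⟩
    obtain ⟨n, rfl⟩ := Ordinal.lt_omega0.1 ha
    exact ⟨n, h n⟩
  · rintro ⟨n, rfl⟩
    exact ⟨n, Ordinal.natCast_lt_omega0 n, h n⟩

theorem exists_inj_of_card_le {a b : ZFSet.{0}} (h : a.card ≤ b.card) : ∃ f, IsInj f a b := by
  classical
  obtain ⟨g⟩ := (Cardinal.le_def _ _).1 h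
  let G : ZFSet.{0} → ZFSet.{0} := fun x =>
    if hx : x ∈ a then ((equivShrink b).symm (g (equivShrink a ⟨x, hx⟩))).1 else ∅
  obtain ⟨f, h4, h5⟩ := AP.exists_graph a b G (fun x hx => by
    simp only [G, dif_pos hx]; exact ((equivShrink b).symm _).2)
  refine ⟨f, AP.isInj_of_fun h4 h5 fun x hx x' hx' e => ?_⟩
  simp only [G, dif_pos hx, dif_pos hx'] at e
  have := (equivShrink a).injective (g.injective ((equivShrink b).symm.injective (Subtype.ext e)))
  exact congrArg Subtype.val this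

variable {P : Type} [Preorder P] [OrderTop P] {N : Set (Nm P)} {G : Set P}

/-- the name of an ordinal -/
noncomputable def on (P : Type) [Preorder P] [OrderTop P] (a : Ordinal.{0}) : Nm P :=
  io P (chk a.toZFSet)

/-- the collapse of an ordinal -/
noncomputable def co (N : Set (Nm P)) (a : Ordinal.{0}) : ZFSet.{0} := pi N (chk a.toZFSet)

theorem on_inj : Function.Injective (on P) := by
  intro x y h
  have h1 := congrArg (fun σ => toZF (fg σ)) h
  simp only [on, fg_io, toZF_chk] at h1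
  exact Ordinal.toZFSet_injective h1

theorem val_on (h : Pair N G) (a : Ordinal.{0}) : val N G (on P a) = co N a :=
  val_io h.core.filt _

theorem co_mem_iff (h : Pair N G) {a b : Ordinal.{0}} (ha : on P a ∈ N) (hb : on P b ∈ N) :
    co N a ∈ co N b ↔ a < b := by
  rw [co, co, h.pi_mem_iff ha hb, toZF_chk, toZF_chk, Ordinal.toZFSet_mem_toZFSet_iff]

theorem co_inj (h : Pair N G) {a b : Ordinal.{0}} (ha : on P a ∈ N) (hb : on P b ∈ N)
    (e : co N a = co N b) : a = b := by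
  rw [co, co, h.pi_eq_iff ha hb, toZF_chk, toZF_chk] at e
  exact Ordinal.toZFSet_injective e

theorem co_ord (h : Pair N G) {a : Ordinal.{0}} (ha : on P a ∈ N) : (co N a).IsOrdinal := by
  rw [co, h.pi_ordinal ha, toZF_chk]
  exact isOrdinal_toZFSet _

theorem co_mem_ext (h : Pair N G) {a : Ordinal.{0}} (ha : on P a ∈ N) : co N a ∈ Ext N G :=
  ⟨_, ha, val_on h a⟩

theorem co_omega (h : Pair N G) (ha : on P Ordinal.omega0 ∈ N) :
    co N Ordinal.omega0 = ZFSet.omega := by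
  rw [← h.ground.val_omega]
  refine (h.pi_eq_iff ha h.ground.omegam).2 ?_
  rw [toZF_chk, omega_toZFSet]
  exact core_univ.val_omega.symm

/-- closure under canonical names -/
def reqCan (P : Type) [Preorder P] [OrderTop P] : Req P :=
  clos fun l => io P (chk (toZF (fg (lv l 0))))

theorem mem_co (h : Pair N G) (hc : Meets N G (reqCan P)) {b : Ordinal.{0}} (hb : on P b ∈ N)
    {z : ZFSet.{0}} (hz : z ∈ co N b) : ∃ a < b, on P a ∈ N ∧ z = co N a := by
  have hbG : co N b ∈ Gnd N := ⟨_, hb, rfl⟩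
  obtain ⟨σ, hσ, rfl⟩ : z ∈ Gnd N := ext_trans _ hbG z hz
  have h5 : toZF σ ∈ b.toZFSet := by
    rw [← toZF_chk b.toZFSet]
    exact (h.pi_mem_iff hσ hb).1 hz
  obtain ⟨a, ha, hx⟩ := Ordinal.mem_toZFSet_iff.1 h5
  have h6 := hc.clos [io P σ] (by
      intro x hx
      rw [List.mem_singleton.1 hx]; exact hσ)
  have h7 : on P a ∈ N := by
    change io P (chk (toZF (fg (io P σ)))) ∈ N at h6
    rw [fg_io, ← hx] at h6
    exact h6
  refine ⟨a, ha, h7, (h.pi_eq_iff hσ h7).2 ?_⟩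
  rw [toZF_chk, hx]

/-- a cardinal of the extension is an initial ordinal -/
theorem initial_of_card (h : Pair N G) {a : Ordinal.{0}} (ha : on P a ∈ N)
    (hc : CardIn (Ext N G) (co N a)) : a.card.ord = a := by
  refine le_antisymm (ord_card_le a) (not_lt.1 fun hlt => ?_)
  obtain ⟨f, hf⟩ := exists_inj_of_card_le (a := a.toZFSet) (b := a.card.ord.toZFSet) (by
    rw [Ordinal.card_toZFSet, Ordinal.card_toZFSet, card_ord])
  have hR : RD fun M v => ∃ β ∈ v 0, ∃ f ∈ M, IsInj f (v 0) β :=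
    (RD.bex 0 (AP.rd_inj.ren (fun i => match i with
      | 0 => 0
      | 1 => 2
      | _ => 1)).ex).congr fun _ _ _ _ => Iff.rfl
  have h6 := (h.transfer_list hR (l := [chk a.toZFSet]) (by
    intro x hx; rw [List.mem_singleton.1 hx]; exact ha)).2
    ⟨a.card.ord.toZFSet, by
      change _ ∈ toZF (chk a.toZFSet)
      rw [toZF_chk, Ordinal.toZFSet_mem_toZFSet_iff]; exact hlt, f, trivial, by
      change IsInj f (toZF (chk a.toZFSet)) _
      rw [toZF_chk]; exact hf⟩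
  obtain ⟨β, hβ, g, hg, hg'⟩ := h6
  exact hc.2.2 β hβ ⟨g, h.subset hg, hg'⟩

theorem pair_mem_iff (h : Pair N G) {σ τ g : Nm P} (hσ : σ ∈ N) (hτ : τ ∈ N) (hg : g ∈ N) :
    pair (val N G σ) (val N G τ) ∈ val N G g ↔ ∃ p ∈ G, FMem (opN σ τ) g p := by
  rw [← h.core.val_op hσ hτ]
  exact h.core.mem_iff (h.core.op_mem hσ hτ) hg

/-- deciding whether a name is an injection of a set into an ordinal -/
def reqInj {o : Ordinal.{0}} (D : Nm P → Nm P → o.ToType → P → Prop) : Req P := fun l q τ =>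
  (∃ x, τ = on P (el x) ∧ D (lv l 0) (lv l 1) x q ∧ ∀ r, r ≤ q → ∀ b ξ, lv l 3 = on P b → ξ < b →
    ¬ FMem (opN (on P (el x)) (on P ξ)) (lv l 2) r) ∨
  (∃ (x x' : o.ToType) (ξ : Ordinal.{0}), x ≠ x' ∧
    τ = pairN (opN (on P (el x)) (on P ξ)) (on P (el x')) ∧
    FMem (opN (on P (el x)) (on P ξ)) (lv l 2) q ∧ FMem (opN (on P (el x')) (on P ξ)) (lv l 2) q) ∨
  ∀ b, lv l 3 = on P b → #{x | ∃ r, r ≤ q ∧ D (lv l 0) (lv l 1) x r} ≤ #P * b.card

theorem reqInj_dense {o : Ordinal.{0}} (D : Nm P → Nm P → o.ToType → P → Prop) :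
    (reqInj D).Dense := by
  intro l p
  by_contra hcon
  have h1 : ∀ q, q ≤ p → ∀ τ, ¬ reqInj D l q τ := fun q hq τ hh => hcon ⟨q, hq, τ, hh⟩
  refine h1 p le_rfl emptyN (Or.inr (Or.inr fun b hb => ?_))
  have h2 : ∀ x : {x | ∃ r, r ≤ p ∧ D (lv l 0) (lv l 1) x r}, ∃ y : P × b.ToType, y.1 ≤ p ∧
      FMem (opN (on P (el x.1)) (on P (el y.2))) (lv l 2) y.1 := by
    rintro ⟨x, r, hr, hx⟩
    by_contra hh
    refine h1 r hr _ (Or.inl ⟨x, rfl, hx, fun r' hr' b' ξ e hξ hm => hh ?_⟩)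
    obtain rfl : b = b' := on_inj (hb.symm.trans e)
    obtain ⟨i, rfl⟩ := el_surj hξ
    exact ⟨(r', i), hr'.trans hr, hm⟩
  choose F hF1 hF2 using h2
  have h3 : #{x | ∃ r, r ≤ p ∧ D (lv l 0) (lv l 1) x r} ≤ #(P × b.ToType) := by
    refine mk_le_of_injective (f := F) fun x x' e => ?_
    by_contra hne
    refine h1 (F x).1 (hF1 x) _ (Or.inr (Or.inl ⟨x.1, x'.1, el (F x).2,
      fun e' => hne (Subtype.ext e'), rfl, hF2 x, ?_⟩))
    rw [e]; exact hF2 x'
  simpa using h3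

theorem inj_lemma (h : Pair N G) (hc : Meets N G (reqCan P)) {o : Ordinal.{0}}
    {D : Nm P → Nm P → o.ToType → P → Prop} (hR : Meets N G (reqInj D)) {σ T g : Nm P}
    (hσ : σ ∈ N) (hT : T ∈ N) (hg : g ∈ N) {b : Ordinal.{0}} (hb : on P b ∈ N)
    (h1 : ∀ x, on P (el x) ∈ N → ∀ r ∈ G, D σ T x r → ∃ ξ ∈ co N b, pair (co N (el x)) ξ ∈ val N G g)
    (h2 : ∀ x x' ξ, pair x ξ ∈ val N G g → pair x' ξ ∈ val N G g → x = x') :
    ∃ q ∈ G, #{x | ∃ r, r ≤ q ∧ D σ T x r} ≤ #P * b.card := by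
  obtain ⟨q, hq, τ, hτ, ⟨x, rfl, a1, a2⟩ | ⟨x, x', ξ, a1, rfl, a2, a3⟩ | a⟩ :=
    hR [σ, T, g, on P b] (by simp [hσ, hT, hg, hb])
  · obtain ⟨z, hz, a3⟩ := h1 x hτ q hq a1
    obtain ⟨ξ, hξ, hξN, rfl⟩ := mem_co h hc hb hz
    rw [← val_on h, ← val_on h, pair_mem_iff h hτ hξN hg] at a3
    obtain ⟨p, hp, a4⟩ := a3
    obtain ⟨r, -, b1, b2⟩ := h.core.filt.dir q hq p hp
    exact absurd (a4.mono b2) (a2 r b1 b ξ rfl hξ)
  · obtain ⟨b1, b2⟩ := h.core.comp _ _ hτ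
    obtain ⟨b3, b4⟩ := h.core.op_comp b1
    have c1 := (pair_mem_iff h b3 b4 hg).2 ⟨q, hq, a2⟩
    have c2 := (pair_mem_iff h b2 b4 hg).2 ⟨q, hq, a3⟩
    have c3 := h2 _ _ _ c1 c2
    rw [val_on h, val_on h] at c3
    exact absurd (el_inj (co_inj h b3 b2 c3)) a1
  · exact ⟨q, hq, a b rfl⟩

/-- the test for cardinal preservation -/
def DCard (P : Type) [Preorder P] [OrderTop P] (o : Ordinal.{0}) :
    Nm P → Nm P → o.ToType → P → Prop := fun σ _ x _ => ∃ c, σ = on P c ∧ el x < c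

theorem card_preserved (h : Pair N G) (hc : Meets N G (reqCan P)) {o : Ordinal.{0}}
    (hR : Meets N G (reqInj (DCard P o))) {c : Cardinal.{0}} (h0 : ℵ₀ ≤ c) (hP : #P < c)
    (hco : c.ord ≤ o) (hN : on P c.ord ∈ N) : CardIn (Ext N G) (co N c.ord) := by
  refine ⟨co_mem_ext h hN, co_ord h hN, ?_⟩
  rintro β hβ ⟨_, ⟨g, hg, rfl⟩, hinj⟩
  obtain ⟨b, hb, hbN, rfl⟩ := mem_co h hc hN hβ
  obtain ⟨q, -, hq⟩ := inj_lemma h hc hR hN hN hg hbN (by
    rintro x hx r - ⟨c', e, hlt⟩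
    obtain rfl := on_inj e
    obtain ⟨y, hy, -⟩ := hinj.1.2 _ ((co_mem_iff h hx hN).2 hlt)
    exact ⟨y, (pair_mem_prod.1 (hinj.1.1 hy)).2, hy⟩) hinj.2
  have h1 : #{x : o.ToType | el x < c.ord} ≤
      #{x | ∃ r, r ≤ q ∧ DCard P o (on P c.ord) (on P c.ord) x r} :=
    mk_le_mk_of_subset fun x hx => ⟨q, le_rfl, _, rfl, hx⟩
  have h2 := (card_le_mk_el hco).trans (h1.trans hq)
  rw [card_ord] at h2
  exact absurd h2 (not_le.2 (mul_lt_of_lt h0 hP (lt_ord.1 hb)))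

end Pool.Agent.H774Z.Ditor
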